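import Mathlib
import Pool.Agent.WeakNoncompactness.Defs
import Pool.Agent.WeakNoncompactness.LinftyProof

/-!
# The De Blasi measure and `wk` are not equivalent on the JBW*-triple `ℓ^∞`

The definitions are in `Pool.Agent.WeakNoncompactness.Defs`, the proof (with an outline) is in
`Pool.Agent.WeakNoncompactness.LinftyProof`.
-/

open scoped ENNReal NNReal

set_option autoImplicit false

namespace Pool.Agent.Results.MP_4226b8_an.LinftyNotEquivalent

open Pool.Agent.WeakNoncompactness

/-- **Main theorem** (negative answer to Q1, hence to Q2). There is a JBW*-triple `M` (namely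
`M = ℓ^∞`) on which no constant `C` satisfies `omega A ≤ C * wk A` for all nonempty bounded
sets `A ⊆ M`. -/
theorem result : ∃ (M : Type) (_ : NormedAddCommGroup M) (_ : NormedSpace ℂ M),
    IsJBWStarTriple M ∧
    ∀ C : ℝ≥0, ∃ A : Set M, A.Nonempty ∧ Bornology.IsBounded A ∧ C * wk A < omega A :=
  ⟨Linf, inferInstance, inferInstance, linf_main⟩

end Pool.Agent.Results.MP_4226b8_an.LinftyNotEquivalent
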